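import Pool.Agent.MT100GO.Stmts
import Pool.Agent.Helper64_MTB.Gen
import Pool.Agent.Helper15_MT100G.Nrm

/-! MT100-GEN, even weight, module NRM: normal subgroups of Zariski dense subgroups of the special
orthogonal group. -/

set_option autoImplicit false
set_option linter.unusedSectionVars false
set_option linter.unusedSimpArgs false

namespace Pool.Agent.MT100GO.H94

open Matrix Module Pool.Agent.MT100 Pool.Agent.MT100G Pool.Agent.Helper78_MT Pool.Agent.MT100B.H64
  Pool.Agent.MT100G.H15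

section lin
variable {n : Type*} [Fintype n] [DecidableEq n] {K : Type*} [Field K]

/-- the equations of the isometries -/
noncomputable def iso (E : Matrix n n K) (i j : n) : MvPolynomial (n × n) K :=
  (∑ k, ∑ l, E k l • (MvPolynomial.X (k, i) * MvPolynomial.X (l, j))) - MvPolynomial.C (E i j)

theorem pev_iso (E : Matrix n n K) (i j : n) (g : Matrix n n K) :
    pev g (iso E i j) = (gᵀ * E * g) i j - E i j := by
  unfold iso
  rw [map_sub, pev_C, map_sum]
  congr 1
  rw [mul_assoc, Matrix.mul_apply]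
  apply Finset.sum_congr rfl
  intro k _
  rw [map_sum, Matrix.mul_apply, Finset.mul_sum]
  apply Finset.sum_congr rfl
  intro l _
  rw [map_smul, map_mul, pev_X, pev_X, transpose_apply, smul_eq_mul]
  ring

theorem pev_one_dr (Y : Matrix n n K) (k i : n) :
    pev 1 (dr Y (MvPolynomial.X (k, i))) = Y k i := by
  rw [dr_X, map_sum, Finset.sum_eq_single k]
  · rw [map_smul, pev_X, one_apply_eq, smul_eq_mul, mul_one]
  · intro m _ hm
    rw [map_smul, pev_X, one_apply_ne (Ne.symm hm), smul_zero]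
  · intro h
    exact absurd (Finset.mem_univ k) h

theorem pev_one_X (k i : n) :
    pev (F := K) 1 (MvPolynomial.X (k, i)) = (1 : Matrix n n K) k i := by
  rw [pev_X]

theorem lieOf_skew {E : Matrix n n K} {Z : Set (Matrix n n K)} (h1 : 1 ∈ Z)
    (hZ : ∀ g ∈ Z, gᵀ * E * g = E) {Y : Matrix n n K} (hY : Y ∈ lieOf Z) :
    Yᵀ * E + E * Y = 0 := by
  ext i j
  have h2 := mem_lieOf.1 hY (iso E i j) (fun g hg => by rw [pev_iso, hZ g hg, sub_self]) 1 h1
  unfold iso at h2
  rw [map_sub, map_sum, map_sub, map_sum] at h2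
  have h3 : dr Y (MvPolynomial.C (E i j)) = 0 := by
    rw [← MvPolynomial.algebraMap_eq]
    exact Derivation.map_algebraMap _ _
  rw [h3, map_zero, sub_zero] at h2
  rw [Matrix.zero_apply, ← h2, Matrix.add_apply]
  have h4 : ∀ k, pev 1 (dr Y (∑ l, E k l • (MvPolynomial.X (k, i) * MvPolynomial.X (l, j)))) =
      Y k i * E k j + (if k = i then (E * Y) i j else 0) := by
    intro k
    rw [map_sum, map_sum]
    have h5 : ∀ l, pev 1 (dr Y (E k l • (MvPolynomial.X (k, i) * MvPolynomial.X (l, j)))) =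
        (if l = j then Y k i * E k j else 0) + (if k = i then E i l * Y l j else 0) := by
      intro l
      rw [Derivation.map_smul, Derivation.leibniz, map_smul, map_add, smul_eq_mul, smul_eq_mul,
        smul_eq_mul, map_mul, map_mul, pev_one_dr, pev_one_dr, pev_one_X, pev_one_X,
        Matrix.one_apply, Matrix.one_apply]
      by_cases h6 : k = i
      · by_cases h7 : l = j
        · rw [if_pos h6, if_pos h7, if_pos h7, if_pos h6, h6, h7]
          ring
        · rw [if_pos h6, if_neg h7, if_neg h7, if_pos h6, h6]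
          ring
      · by_cases h7 : l = j
        · rw [if_neg h6, if_pos h7, if_pos h7, if_neg h6, h7]
          ring
        · rw [if_neg h6, if_neg h7, if_neg h7, if_neg h6]
          ring
    rw [Finset.sum_congr rfl (fun l _ => h5 l), Finset.sum_add_distrib, Finset.sum_ite_eq',
      if_pos (Finset.mem_univ _)]
    congr 1
    by_cases h6 : k = i
    · simp only [h6, if_true]
      rw [Matrix.mul_apply]
    · simp only [h6, if_false, Finset.sum_const_zero]
  rw [Finset.sum_congr rfl (fun k _ => h4 k), Finset.sum_add_distrib, Finset.sum_ite_eq',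
    if_pos (Finset.mem_univ _), Matrix.mul_apply]
  congr 1

/-- the exponential curve -/
noncomputable def ex (A : Matrix n n K) : Matrix n n (Polynomial K) := fun i j =>
  Polynomial.C ((1 : Matrix n n K) i j) + Polynomial.X * Polynomial.C (A i j) +
    Polynomial.X ^ 2 * Polynomial.C (2⁻¹ * (A ^ 2) i j)

theorem ex_eval (A : Matrix n n K) (s : K) :
    (ex A).map (Polynomial.eval s) = 1 + s • A + (s ^ 2 / 2) • A ^ 2 := by
  ext i j
  rw [Matrix.map_apply, Matrix.add_apply, Matrix.add_apply, Matrix.smul_apply, Matrix.smul_apply]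
  unfold ex
  simp only [Polynomial.eval_add, Polynomial.eval_mul, Polynomial.eval_C, Polynomial.eval_X,
    Polynomial.eval_pow, smul_eq_mul]
  ring

theorem ex_zero (A : Matrix n n K) (i j : n) : (ex A i j).eval 0 = (1 : Matrix n n K) i j := by
  unfold ex
  simp

theorem ex_deriv (A : Matrix n n K) (i j : n) :
    (Polynomial.derivative (ex A i j)).eval 0 = A i j := by
  unfold ex
  simp

variable [CharZero K]

/-- the derivative of a curve through the identity -/
theorem lieOf_curve {Z : Set (Matrix n n K)} (hmul : ∀ a ∈ Z, ∀ b ∈ Z, a * b ∈ Z)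
    (c : Matrix n n (Polynomial K)) {A : Matrix n n K}
    (h : ∀ s : K, c.map (Polynomial.eval s) ∈ Z) (h0 : c.map (Polynomial.eval 0) = 1)
    (h1 : ∀ i j, (Polynomial.derivative (c i j)).eval 0 = A i j) : A ∈ lieOf Z := by
  rw [mem_lieOf]
  intro p hp g hg
  have hev : ∀ s : K, (g.map Polynomial.C * c).map (Polynomial.eval s) =
      g * c.map (Polynomial.eval s) := by
    intro s
    ext i j
    rw [Matrix.map_apply, Matrix.mul_apply, Matrix.mul_apply, Polynomial.eval_finsetSum]
    apply Finset.sum_congr rfl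
    intro k _
    rw [Matrix.map_apply, Matrix.map_apply, Polynomial.eval_mul, Polynomial.eval_C]
  have h2 : cev (g.map Polynomial.C * c) p = 0 := by
    apply poly_zero_of_eval
    intro t _
    rw [cev_eval, hev]
    exact hp _ (hmul _ hg _ (h t))
  have h3 := cev_deriv_zero (Γ := g.map Polynomial.C * c) (A := A) (by
    intro i j
    have e1 : ∀ k, ((g.map Polynomial.C * c) i k).eval 0 = g i k := by
      intro k
      have e2 := congrFun (congrFun (hev 0) i) k
      rw [Matrix.map_apply, h0, mul_one] at e2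
      exact e2
    simp only [e1]
    rw [Matrix.mul_apply, Polynomial.derivative_sum, Polynomial.eval_finsetSum]
    apply Finset.sum_congr rfl
    intro k _
    rw [Matrix.map_apply, Polynomial.derivative_C_mul, Polynomial.eval_mul, Polynomial.eval_C,
      h1]) p
  rw [h2, Polynomial.derivative_zero, Polynomial.eval_zero, hev, h0, mul_one] at h3
  exact h3.symm

/-- the derivative of a product of exponentials -/
theorem lieOf_ex {Z : Set (Matrix n n K)} (hmul : ∀ a ∈ Z, ∀ b ∈ Z, a * b ∈ Z)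
    {A B : Matrix n n K}
    (h : ∀ s : K, (1 + s • A + (s ^ 2 / 2) • A ^ 2) * (1 + s • B + (s ^ 2 / 2) • B ^ 2) ∈ Z) :
    A + B ∈ lieOf Z := by
  have hev : ∀ s : K, (ex A * ex B).map (Polynomial.eval s) =
      (1 + s • A + (s ^ 2 / 2) • A ^ 2) * (1 + s • B + (s ^ 2 / 2) • B ^ 2) := by
    intro s
    rw [← ex_eval, ← ex_eval]
    ext i j
    rw [Matrix.map_apply, Matrix.mul_apply, Matrix.mul_apply, Polynomial.eval_finsetSum]
    apply Finset.sum_congr rfl
    intro k _
    rw [Matrix.map_apply, Matrix.map_apply, Polynomial.eval_mul]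
  apply lieOf_curve hmul (ex A * ex B)
  · intro s
    rw [hev]
    exact h s
  · rw [hev]
    simp
  · intro i j
    rw [Matrix.mul_apply, Polynomial.derivative_sum, Polynomial.eval_finsetSum]
    have e1 : ∀ k, (Polynomial.derivative (ex A i k * ex B k j)).eval 0 =
        A i k * (1 : Matrix n n K) k j + (1 : Matrix n n K) i k * B k j := by
      intro k
      rw [Polynomial.derivative_mul, Polynomial.eval_add, Polynomial.eval_mul,
        Polynomial.eval_mul, ex_zero, ex_zero, ex_deriv, ex_deriv]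
    rw [Finset.sum_congr rfl (fun k _ => e1 k), Finset.sum_add_distrib, ← Matrix.mul_apply,
      ← Matrix.mul_apply, mul_one, one_mul, Matrix.add_apply]

end lin

/-- NRM -/
theorem nrm : SclStmt → SoiStmt → NrmStmt := by
  intro hscl hsoi d _ _ J0 hsym hunit hd M Γ hM hMA hΓA h1 hmul hinv hn hex f hf g hg
  obtain ⟨a, ha, hns⟩ := hex
  have hE := emb_unit hunit
  have hF : (J0.map (algebraMap ℚ ℂ))ᵀ = J0.map (algebraMap ℚ ℂ) := by
    rw [← transpose_map, hsym]
  have hdet : ∀ x ∈ Aut J0, IsUnit x.det := by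
    intro x hx
    have h2 : ((J0.map (algebraMap ℚ ℂ))⁻¹ * xᵀ * J0.map (algebraMap ℚ ℂ)) * x = 1 := by
      have h3 : xᵀ * J0.map (algebraMap ℚ ℂ) * x = J0.map (algebraMap ℚ ℂ) := hx
      rw [mul_assoc, mul_assoc, ← mul_assoc xᵀ, h3, nonsing_inv_mul _ hE]
    exact (isUnit_iff_isUnit_det x).mp (IsUnit.of_mul_eq_one_right _ h2)
  have hsub : Γ ⊆ zcl Γ := subset_zcl (fun x hx => hdet x (hΓA hx).1)
  have hmulZ : ∀ x ∈ zcl Γ, ∀ y ∈ zcl Γ, x * y ∈ zcl Γ := fun x hx y hy => zcl_mul hmul hx hy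
  have hiso : ∀ z ∈ zcl Γ, zᵀ * J0.map (algebraMap ℚ ℂ) * z = J0.map (algebraMap ℚ ℂ) := by
    intro z hz
    ext i j
    have h2 := hz.2 (iso (J0.map (algebraMap ℚ ℂ)) i j) (fun t ht => by
      have h3 : tᵀ * J0.map (algebraMap ℚ ℂ) * t = J0.map (algebraMap ℚ ℂ) := (hΓA ht).1
      rw [pev_iso, h3, sub_self])
    rw [pev_iso] at h2
    exact sub_eq_zero.1 h2
  have hconj : ∀ x ∈ SAut J0, ∀ z ∈ zcl Γ, x * z * x⁻¹ ∈ zcl Γ := by
    intro x hx z hz
    exact zcl_conj hE (G := SAut J0) (fun y hy => hy.1) hM (fun y hy => hMA hy) hn hz hx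
  obtain ⟨hA, hB, -⟩ := hscl d J0 hsym hunit (by omega)
  obtain ⟨X, hX3, hXs, hXa⟩ : ∃ X : Matrix d d ℂ, X ^ 3 = 0 ∧
      Xᵀ * J0.map (algebraMap ℚ ℂ) + J0.map (algebraMap ℚ ℂ) * X = 0 ∧ a * X ≠ X * a := by
    by_contra hc
    push Not at hc
    exact hns (hA a (hΓA ha).1 hc)
  have hau := hdet a (hΓA ha).1
  have haa : a⁻¹ * a = 1 := nonsing_inv_mul a hau
  have hX : a * X * a⁻¹ + -X ∈ lieOf (zcl Γ) := by
    apply lieOf_ex hmulZ
    intro s
    obtain ⟨hu, huu⟩ := hB X hX3 hXs s
    have hui := inv_eq_right_inv huu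
    have h2 := hmulZ _ (hsub ha) _ (hconj _ hu _ (hsub (hinv a ha)))
    rw [hui] at h2
    have h3 : (1 + s • (a * X * a⁻¹) + (s ^ 2 / 2) • (a * X * a⁻¹) ^ 2) *
        (1 + s • (-X) + (s ^ 2 / 2) • (-X) ^ 2) =
        a * ((1 + s • X + (s ^ 2 / 2) • X ^ 2) * a⁻¹ *
          (1 + (-s) • X + (s ^ 2 / 2) • X ^ 2)) := by
      have e1 : (a * X * a⁻¹) ^ 2 = a * X ^ 2 * a⁻¹ := by
        rw [sq, sq]
        have e2 : a * X * a⁻¹ * (a * X * a⁻¹) = a * X * (a⁻¹ * a) * X * a⁻¹ := by
          simp only [mul_assoc]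
        rw [e2, haa, mul_one]
        simp only [mul_assoc]
      rw [e1, neg_sq, smul_neg, neg_smul]
      have e3 : (1 : Matrix d d ℂ) + s • (a * X * a⁻¹) + (s ^ 2 / 2) • (a * X ^ 2 * a⁻¹) =
          a * (1 + s • X + (s ^ 2 / 2) • X ^ 2) * a⁻¹ := by
        rw [mul_add, mul_add, add_mul, add_mul, mul_one, mul_nonsing_inv a hau, mul_smul_comm,
          mul_smul_comm, smul_mul_assoc, smul_mul_assoc]
      rw [e3]
      simp only [mul_assoc]
    rw [h3]
    exact h2
  have hne : lieOf (zcl Γ) ≠ ⊥ := by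
    intro hbot
    rw [hbot, Submodule.mem_bot] at hX
    apply hXa
    have h2 : a * X * a⁻¹ = X := by
      rw [← sub_eq_add_neg] at hX
      exact sub_eq_zero.1 hX
    have h3 : a * X * a⁻¹ * a = X * a := by rw [h2]
    rwa [mul_assoc, haa, mul_one] at h3
  have hskew : ∀ Y ∈ lieOf (zcl Γ), Yᵀ * J0.map (algebraMap ℚ ℂ) +
      J0.map (algebraMap ℚ ℂ) * Y = 0 := fun Y hY => lieOf_skew (hsub h1) hiso hY
  have hconjL : ∀ x ∈ SAut J0, ∀ A ∈ lieOf (zcl Γ), x * A * x⁻¹ ∈ lieOf (zcl Γ) := by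
    intro x hx A hA
    have hxu := hdet x hx.1
    apply lieOf_conj (nonsing_inv_mul x hxu) (mul_nonsing_inv x hxu) (hconj x hx) _ hA
    intro z hz
    have h2 : x⁻¹ ∈ SAut J0 := by
      refine ⟨?_, ?_⟩
      · change (x⁻¹)ᵀ * J0.map (algebraMap ℚ ℂ) * x⁻¹ = J0.map (algebraMap ℚ ℂ)
        have h3 : xᵀ * J0.map (algebraMap ℚ ℂ) * x = J0.map (algebraMap ℚ ℂ) := hx.1
        have h4 : (x⁻¹)ᵀ * (xᵀ * J0.map (algebraMap ℚ ℂ) * x) * x⁻¹ =
            J0.map (algebraMap ℚ ℂ) := by
          rw [mul_assoc, mul_assoc, mul_assoc, mul_nonsing_inv x hxu, mul_one, ← mul_assoc,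
            ← transpose_mul, mul_nonsing_inv x hxu, transpose_one, one_mul]
        rwa [h3] at h4
      · rw [det_nonsing_inv, hx.2, Ring.inverse_one]
    have h3 := hconj _ h2 z hz
    rwa [nonsing_inv_nonsing_inv x hxu] at h3
  have hall := hsoi d J0 hsym hunit hd (lieOf (zcl Γ)) hne hskew hconjL
  have key : g ∈ zcl Γ := so_mem hF hE (hsub h1) hmulZ
    (zcl_closed Γ (fun x hx => hdet x (hΓA hx).1)) hall hg.1 hg.2
  exact key.2 f hf

end Pool.Agent.MT100GO.H94
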