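import Pool.Agent.MT100GO.Stmts
import Pool.Agent.Helper64_MTB.Gen

/-! MT100-GEN, even weight, module SOI: the adjoint representation of the special orthogonal group is
irreducible. -/

set_option autoImplicit false
set_option linter.unusedSectionVars false
set_option linter.unusedSimpArgs false

namespace Pool.Agent.MT100GO.H94

open Matrix Module Pool.Agent.MT100 Pool.Agent.MT100G Pool.Agent.Helper78_MT Pool.Agent.MT100B.H64

variable {d : Type*} [Fintype d] [DecidableEq d]

/-- signs: minus one at two places -/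
noncomputable def sg (i j k : d) : ℂ := if k = i ∨ k = j then -1 else 1

theorem sg_sq (i j k : d) : sg i j k * sg i j k = 1 := by
  unfold sg
  split_ifs <;> norm_num

theorem sg_prod {i j : d} (h : i ≠ j) : ∏ k, sg i j k = 1 := by
  have h1 : ∏ k, sg i j k = ∏ k ∈ ({i, j} : Finset d), sg i j k := by
    symm
    apply Finset.prod_subset (Finset.subset_univ _)
    intro k _ hk
    unfold sg
    rw [if_neg]
    intro hc
    apply hk
    rw [Finset.mem_insert, Finset.mem_singleton]
    exact hc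
  rw [h1, Finset.prod_pair h]
  unfold sg
  simp

/-- elementary skew matrices -/
noncomputable def el (i j : d) : Matrix d d ℂ := single i j 1 - single j i 1

/-- the part of the matrix with signs -/
theorem op_mem {L : Submodule ℂ (Matrix d d ℂ)}
    (hst : ∀ O : Matrix d d ℂ, Oᵀ * O = 1 → O.det = 1 → ∀ X ∈ L, O * X * Oᵀ ∈ L)
    {i j : d} (h : i ≠ j) {X : Matrix d d ℂ} (hX : X ∈ L) :
    Matrix.of (fun k l => (1 - sg i j k * sg i j l) * X k l) ∈ L := by
  have h1 := hst (diagonal (sg i j)) (by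
    rw [diagonal_transpose, diagonal_mul_diagonal]
    have : (fun k => sg i j k * sg i j k) = fun _ : d => (1 : ℂ) := by
      funext k
      exact sg_sq i j k
    rw [this, diagonal_one]) (by rw [det_diagonal, sg_prod h]) X hX
  have h2 := L.sub_mem hX h1
  have h3 : Matrix.of (fun k l => (1 - sg i j k * sg i j l) * X k l) =
      X - diagonal (sg i j) * X * (diagonal (sg i j))ᵀ := by
    ext k l
    rw [diagonal_transpose, Matrix.sub_apply, mul_diagonal, diagonal_mul, of_apply]
    ring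
  rw [h3]
  exact h2

theorem el_mem {L : Submodule ℂ (Matrix d d ℂ)} (hd : 5 ≤ Fintype.card d)
    (hst : ∀ O : Matrix d d ℂ, Oᵀ * O = 1 → O.det = 1 → ∀ X ∈ L, O * X * Oᵀ ∈ L)
    (hsk : ∀ X ∈ L, Xᵀ + X = 0) {X : Matrix d d ℂ} (hX : X ∈ L) {a b : d} (hab : a ≠ b)
    (h : X a b ≠ 0) : el a b ∈ L := by
  obtain ⟨c, hc⟩ : ∃ c, c ∉ ({a, b} : Finset d) := by
    by_contra hcon
    push Not at hcon
    have h1 := Finset.card_le_card (fun x (_ : x ∈ (Finset.univ : Finset d)) => hcon x)
    have h2 := Finset.card_le_two (a := a) (b := b)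
    rw [Finset.card_univ] at h1
    omega
  obtain ⟨e, he⟩ : ∃ e, e ∉ ({a, b, c} : Finset d) := by
    by_contra hcon
    push Not at hcon
    have h1 := Finset.card_le_card (fun x (_ : x ∈ (Finset.univ : Finset d)) => hcon x)
    have h2 := Finset.card_le_three (a := a) (b := b) (c := c)
    rw [Finset.card_univ] at h1
    omega
  obtain ⟨f, hf⟩ : ∃ f, f ∉ ({a, b, c, e} : Finset d) := by
    by_contra hcon
    push Not at hcon
    have h1 := Finset.card_le_card (fun x (_ : x ∈ (Finset.univ : Finset d)) => hcon x)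
    have h2 := Finset.card_le_four (a := a) (b := b) (c := c) (d := e)
    rw [Finset.card_univ] at h1
    omega
  simp only [Finset.mem_insert, Finset.mem_singleton, not_or] at hc he hf
  obtain ⟨hca, hcb⟩ := hc
  obtain ⟨hea, heb, hec⟩ := he
  obtain ⟨hfa, hfb, hfc, hfe⟩ := hf
  have h1 := op_mem hst (Ne.symm hca) hX
  have h2 := op_mem hst (Ne.symm hea) h1
  have h3 := op_mem hst (Ne.symm hcb) h2
  have h4 := op_mem hst (Ne.symm hfa) h3
  have hba : X b a = - X a b := by
    have h5 := congrFun (congrFun (hsk X hX) a) b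
    rw [Matrix.add_apply, transpose_apply, Matrix.zero_apply] at h5
    linear_combination h5
  have key : ∀ k l, (1 - sg a f k * sg a f l) * ((1 - sg b c k * sg b c l) *
      ((1 - sg a e k * sg a e l) * ((1 - sg a c k * sg a c l) * X k l))) =
      (16 * X a b) * el a b k l := by
    intro k l
    unfold el
    rw [Matrix.sub_apply, single_apply, single_apply]
    unfold sg
    have hk : k = a ∨ k = b ∨ k = c ∨ k = e ∨ k = f ∨
        (k ≠ a ∧ k ≠ b ∧ k ≠ c ∧ k ≠ e ∧ k ≠ f ∧ a ≠ k ∧ b ≠ k) := by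
      by_cases k1 : k = a
      · exact Or.inl k1
      by_cases k2 : k = b
      · exact Or.inr (Or.inl k2)
      by_cases k3 : k = c
      · exact Or.inr (Or.inr (Or.inl k3))
      by_cases k4 : k = e
      · exact Or.inr (Or.inr (Or.inr (Or.inl k4)))
      by_cases k5 : k = f
      · exact Or.inr (Or.inr (Or.inr (Or.inr (Or.inl k5))))
      · exact Or.inr (Or.inr (Or.inr (Or.inr (Or.inr
          ⟨k1, k2, k3, k4, k5, Ne.symm k1, Ne.symm k2⟩))))
    have hl : l = a ∨ l = b ∨ l = c ∨ l = e ∨ l = f ∨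
        (l ≠ a ∧ l ≠ b ∧ l ≠ c ∧ l ≠ e ∧ l ≠ f ∧ a ≠ l ∧ b ≠ l) := by
      by_cases k1 : l = a
      · exact Or.inl k1
      by_cases k2 : l = b
      · exact Or.inr (Or.inl k2)
      by_cases k3 : l = c
      · exact Or.inr (Or.inr (Or.inl k3))
      by_cases k4 : l = e
      · exact Or.inr (Or.inr (Or.inr (Or.inl k4)))
      by_cases k5 : l = f
      · exact Or.inr (Or.inr (Or.inr (Or.inr (Or.inl k5))))
      · exact Or.inr (Or.inr (Or.inr (Or.inr (Or.inr
          ⟨k1, k2, k3, k4, k5, Ne.symm k1, Ne.symm k2⟩))))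
    have h16 : (1 + 1) * ((1 + 1) * ((1 + 1) * ((1 + 1) * X a b))) = 16 * X a b := by ring
    rcases hk with hk | hk | hk | hk | hk | hk <;> rcases hl with hl | hl | hl | hl | hl | hl <;>
      simp [hk, hl, hab, Ne.symm hab, hca, hcb, Ne.symm hca, Ne.symm hcb, hea, heb, Ne.symm hea,
        Ne.symm heb, hec, Ne.symm hec, hfa, hfb, Ne.symm hfa, Ne.symm hfb, hfc, Ne.symm hfc, hfe,
        Ne.symm hfe, hba, h16]
  have h6 : Matrix.of (fun k l => (1 - sg a f k * sg a f l) *
      (Matrix.of (fun k l => (1 - sg b c k * sg b c l) *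
        (Matrix.of (fun k l => (1 - sg a e k * sg a e l) *
          (Matrix.of (fun k l => (1 - sg a c k * sg a c l) * X k l) k l)) k l)) k l)) =
      (16 * X a b) • el a b := by
    ext k l
    simp only [of_apply]
    rw [Matrix.smul_apply, smul_eq_mul, key]
  rw [h6] at h4
  have h7 := L.smul_mem (16 * X a b)⁻¹ h4
  rwa [smul_smul, inv_mul_cancel₀ (mul_ne_zero (by norm_num) h), one_smul] at h7

theorem el_neg (a b : d) : el b a = -el a b := by
  unfold el
  rw [neg_sub]

theorem el_self (a : d) : el a a = 0 := by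
  unfold el
  rw [sub_self]

theorem el_vec (a b : d) : el a b = rot 1 (Pi.single a 1) (Pi.single b 1) := by
  have h : ∀ a b k l : d, (if a = k ∧ b = l then (1 : ℂ) else 0) =
      (if k = a then 1 else 0) * (if l = b then 1 else 0) := by
    intro a b k l
    by_cases h1 : k = a
    · by_cases h2 : l = b
      · rw [if_pos ⟨h1.symm, h2.symm⟩, if_pos h1, if_pos h2, one_mul]
      · rw [if_neg (fun h => h2 h.2.symm), if_neg h2, mul_zero]
    · rw [if_neg (fun h => h1 h.1.symm), if_neg h1, zero_mul]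
  ext k l
  unfold el rot
  rw [one_mulVec, one_mulVec, Matrix.sub_apply, Matrix.sub_apply, vecMulVec_apply, vecMulVec_apply,
    single_apply, single_apply, h, h, Pi.single_apply, Pi.single_apply, Pi.single_apply,
    Pi.single_apply]

/-- conjugation of an infinitesimal rotation -/
theorem rot_conj (O : Matrix d d ℂ) (x y : d → ℂ) :
    O * rot 1 x y * Oᵀ = rot 1 (O *ᵥ x) (O *ᵥ y) := by
  unfold rot
  rw [one_mulVec, one_mulVec, one_mulVec, one_mulVec, mul_sub, sub_mul, mul_vecMulVec,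
    mul_vecMulVec, vecMulVec_mul, vecMulVec_mul, vecMul_transpose, vecMul_transpose]

/-- a special orthogonal matrix which fixes one unit vector and moves another one -/
theorem exists_rot {a b c : d} (hab : a ≠ b) (hbc : b ≠ c) (hac : a ≠ c) :
    ∃ O : Matrix d d ℂ, Oᵀ * O = 1 ∧ O.det = 1 ∧
      O *ᵥ (Pi.single a 1) = (Pi.single a 1 : d → ℂ) ∧
      O *ᵥ (Pi.single b 1) = (Pi.single c 1 : d → ℂ) := by
  have h1 : qf (1 : Matrix d d ℂ) (Pi.single c 1) ≠ 0 := by
    unfold qf
    rw [one_mulVec, single_dotProduct, Pi.single_eq_same]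
    norm_num
  have h2 : qf (1 : Matrix d d ℂ) (Pi.single b 1 - Pi.single c 1) ≠ 0 := by
    unfold qf
    rw [one_mulVec, sub_dotProduct, dotProduct_sub, dotProduct_sub, single_dotProduct,
      single_dotProduct, single_dotProduct, single_dotProduct, Pi.single_eq_same,
      Pi.single_eq_same, Pi.single_eq_of_ne hbc, Pi.single_eq_of_ne (Ne.symm hbc)]
    norm_num
  have hF : (1 : Matrix d d ℂ)ᵀ = 1 := transpose_one
  refine ⟨refl 1 (Pi.single b 1 - Pi.single c 1) * refl 1 (Pi.single c 1), ?_, ?_, ?_, ?_⟩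
  · have h3 := orth_mul (refl_orth hF h2) (refl_orth hF h1)
    rwa [mul_one] at h3
  · rw [det_mul, refl_det h1, refl_det h2]
    norm_num
  · rw [← mulVec_mulVec, refl_fix hF h1, refl_fix hF h2]
    · rw [one_mulVec, sub_dotProduct, single_dotProduct, single_dotProduct,
        Pi.single_eq_of_ne (Ne.symm hab), Pi.single_eq_of_ne (Ne.symm hac)]
      norm_num
    · rw [one_mulVec, single_dotProduct, Pi.single_eq_of_ne (Ne.symm hac)]
      norm_num
  · rw [← mulVec_mulVec, refl_fix hF h1, refl_move hF _ h2]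
    · unfold qf
      rw [one_mulVec, one_mulVec, single_dotProduct, single_dotProduct, Pi.single_eq_same,
        Pi.single_eq_same]
    · rw [one_mulVec, single_dotProduct, Pi.single_eq_of_ne (Ne.symm hbc)]
      norm_num

theorem el_move {L : Submodule ℂ (Matrix d d ℂ)}
    (hst : ∀ O : Matrix d d ℂ, Oᵀ * O = 1 → O.det = 1 → ∀ X ∈ L, O * X * Oᵀ ∈ L)
    {a b c : d} (hab : a ≠ b) (hac : a ≠ c) (h : el a b ∈ L) : el a c ∈ L := by
  by_cases hbc : b = c
  · rwa [← hbc]
  obtain ⟨O, h1, h2, h3, h4⟩ := exists_rot hab hbc hac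
  have h5 := hst O h1 h2 _ h
  rwa [el_vec, rot_conj, h3, h4, ← el_vec] at h5

/-- the standard form -/
theorem soi_one (hd : 5 ≤ Fintype.card d) {L : Submodule ℂ (Matrix d d ℂ)} (hL : L ≠ ⊥)
    (hst : ∀ O : Matrix d d ℂ, Oᵀ * O = 1 → O.det = 1 → ∀ X ∈ L, O * X * Oᵀ ∈ L)
    (hsk : ∀ X ∈ L, Xᵀ + X = 0) (X : Matrix d d ℂ) (hX : Xᵀ + X = 0) : X ∈ L := by
  have hent : ∀ X : Matrix d d ℂ, Xᵀ + X = 0 → ∀ i j, X j i = - X i j := by
    intro X hX i j
    have h5 := congrFun (congrFun hX i) j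
    rw [Matrix.add_apply, transpose_apply, Matrix.zero_apply] at h5
    linear_combination h5
  obtain ⟨Z, hZ, hZ0⟩ := L.exists_mem_ne_zero_of_ne_bot hL
  obtain ⟨a, b, hab⟩ : ∃ a b, Z a b ≠ 0 := by
    by_contra hc
    push Not at hc
    exact hZ0 (by ext i j; exact hc i j)
  have hne : a ≠ b := by
    rintro rfl
    have h1 := hent Z (hsk Z hZ) a a
    apply hab
    have h2 : (2 : ℂ) * Z a a = 0 := by linear_combination h1
    rcases mul_eq_zero.1 h2 with h3 | h3
    · exact absurd h3 two_ne_zero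
    · exact h3
  have h0 := el_mem hd hst hsk hZ hne hab
  have h1 : ∀ c, a ≠ c → el a c ∈ L := fun c hc => el_move hst hne hc h0
  have h2 : ∀ c, a ≠ c → el c a ∈ L := by
    intro c hc
    rw [el_neg]
    exact L.neg_mem (h1 c hc)
  have h3 : ∀ k l, k ≠ l → el k l ∈ L := by
    intro k l hkl
    by_cases hk : a = k
    · rw [← hk]
      apply h1
      rw [hk]
      exact hkl
    · exact el_move hst (Ne.symm hk) hkl (h2 k hk)
  have h4 : X = (2 : ℂ)⁻¹ • ∑ k, ∑ l, X k l • el k l := by
    ext i j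
    rw [Matrix.smul_apply, Matrix.sum_apply]
    simp only [Matrix.sum_apply, Matrix.smul_apply, smul_eq_mul]
    have e1 : ∀ k, ∑ l, X k l * el k l i j = (if k = i then X i j else 0) -
        (if k = j then X j i else 0) := by
      intro k
      have e2 : ∀ l, X k l * el k l i j = (if k = i ∧ l = j then X i j else 0) -
          (if l = i ∧ k = j then X j i else 0) := by
        intro l
        unfold el
        rw [Matrix.sub_apply, single_apply, single_apply]
        split_ifs with h5 h6 h6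
        · have h7 : i = j := h5.1.symm.trans h6.2
          subst h7
          rw [h5.1, h5.2]
          ring
        · rw [h5.1, h5.2]
          ring
        · rw [h6.1, h6.2]
          ring
        · ring
      rw [Finset.sum_congr rfl (fun l _ => e2 l), Finset.sum_sub_distrib]
      congr 1
      · by_cases h5 : k = i
        · simp [h5]
        · simp [h5]
      · by_cases h5 : k = j
        · simp [h5]
        · simp [h5]
    rw [Finset.sum_congr rfl (fun k _ => e1 k), Finset.sum_sub_distrib, Finset.sum_ite_eq',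
      Finset.sum_ite_eq', if_pos (Finset.mem_univ _), if_pos (Finset.mem_univ _),
      hent X hX i j]
    ring
  rw [h4]
  apply L.smul_mem
  apply L.sum_mem
  intro k _
  apply L.sum_mem
  intro l _
  apply L.smul_mem
  by_cases hkl : k = l
  · rw [hkl, el_self]
    exact L.zero_mem
  · exact h3 k l hkl

/-- a symmetric form over the complex numbers is equivalent to the standard one -/
theorem exists_std {F : Matrix d d ℂ} (hF : Fᵀ = F) (hdet : IsUnit F.det) :
    ∃ Q : Matrix d d ℂ, Qᵀ * F * Q = 1 := by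
  obtain ⟨e, he1, he2⟩ := exists_basis hF hdet
  have hcard : Fintype.card d = Fintype.card (Fin (finrank ℂ (d → ℂ))) := by
    rw [Fintype.card_fin, finrank_fintype_fun_eq_card]
  let φ : d ≃ Fin (finrank ℂ (d → ℂ)) := Fintype.equivOfCardEq hcard
  have hsq : ∀ i, ∃ c : ℂ, c * c = qf F (e i) := by
    intro i
    obtain ⟨c, hc⟩ := IsAlgClosed.exists_eq_mul_self (qf F (e i))
    exact ⟨c, hc.symm⟩
  choose c hc using hsq
  have hc0 : ∀ i, c i ≠ 0 := by
    intro i h0
    apply he2 i
    rw [← hc, h0, mul_zero]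
  refine ⟨Matrix.of (fun i j => (c (φ j))⁻¹ * e (φ j) i), ?_⟩
  ext i j
  have h1 : ((Matrix.of (fun i j => (c (φ j))⁻¹ * e (φ j) i))ᵀ * F *
      Matrix.of (fun i j => (c (φ j))⁻¹ * e (φ j) i)) i j =
      (c (φ i))⁻¹ * (c (φ j))⁻¹ * (e (φ i) ⬝ᵥ (F *ᵥ e (φ j))) := by
    rw [mul_assoc, Matrix.mul_apply, dotProduct, Finset.mul_sum]
    apply Finset.sum_congr rfl
    intro k _
    rw [transpose_apply, of_apply, Matrix.mul_apply, mulVec, dotProduct, Finset.mul_sum,
      Finset.mul_sum, Finset.mul_sum]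
    apply Finset.sum_congr rfl
    intro l _
    rw [of_apply]
    ring
  rw [h1]
  by_cases hij : i = j
  · subst hij
    have h2 : e (φ i) ⬝ᵥ (F *ᵥ e (φ i)) = c (φ i) * c (φ i) := (hc (φ i)).symm
    rw [h2, one_apply_eq]
    have := hc0 (φ i)
    field_simp
  · rw [he1 _ _ (fun h => hij (φ.injective h)), one_apply_ne hij, mul_zero]

/-- SOI -/
theorem soi : SoiStmt := by
  intro d _ _ J0 hsym hunit hd L hL hsk hst X hX
  obtain ⟨F, hFdef⟩ : ∃ F : Matrix d d ℂ, F = J0.map (algebraMap ℚ ℂ) := ⟨_, rfl⟩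
  have hF : Fᵀ = F := by
    rw [hFdef, ← transpose_map, hsym]
  have hdet : IsUnit F.det := by
    have h2 := hunit.map (algebraMap ℚ ℂ)
    rw [hFdef]
    rwa [RingHom.map_det, RingHom.mapMatrix_apply] at h2
  rw [← hFdef] at hX
  obtain ⟨Q, hQ⟩ := exists_std hF hdet
  have hinv : (Qᵀ * F) * Q = 1 := hQ
  have hinv' : Q * (Qᵀ * F) = 1 := mul_eq_one_comm.1 hinv
  have hQt : F * Q * Qᵀ = 1 := by
    have h1 : (Q * (Qᵀ * F))ᵀ = 1 := by rw [hinv', transpose_one]
    rw [transpose_mul, transpose_mul, transpose_transpose, hF] at h1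
    exact h1
  let φ : Matrix d d ℂ →ₗ[ℂ] Matrix d d ℂ :=
    (LinearMap.mulRight ℂ (Qᵀ * F)).comp (LinearMap.mulLeft ℂ Q)
  have hφ : ∀ Y, φ Y = Q * Y * (Qᵀ * F) := fun Y => rfl
  have hback : ∀ Y : Matrix d d ℂ, φ (Qᵀ * F * Y * Q) = Y := by
    intro Y
    rw [hφ]
    have : Q * (Qᵀ * F * Y * Q) * (Qᵀ * F) = (Q * (Qᵀ * F)) * Y * (Q * (Qᵀ * F)) := by
      simp only [mul_assoc]
    rw [this, hinv', one_mul, mul_one]
  have hsk' : ∀ Y, Yᵀ * F + F * Y = 0 → (Qᵀ * F * Y * Q)ᵀ + Qᵀ * F * Y * Q = 0 := by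
    intro Y hY
    have h1 : (Qᵀ * F * Y * Q)ᵀ + Qᵀ * F * Y * Q = Qᵀ * (Yᵀ * F + F * Y) * Q := by
      rw [transpose_mul, transpose_mul, transpose_mul, transpose_transpose, hF]
      simp only [mul_assoc, mul_add, add_mul]
    rw [h1, hY, mul_zero, zero_mul]
  have h1 : L.comap φ ≠ ⊥ := by
    obtain ⟨Z, hZ, hZ0⟩ := L.exists_mem_ne_zero_of_ne_bot hL
    intro hbot
    have h2 : Qᵀ * F * Z * Q ∈ L.comap φ := by
      rw [Submodule.mem_comap, hback]
      exact hZ
    rw [hbot, Submodule.mem_bot] at h2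
    apply hZ0
    rw [← hback Z, h2, map_zero]
  have h2 : Qᵀ * F * X * Q ∈ L.comap φ := by
    apply soi_one hd h1 _ _ _ (hsk' X hX)
    · intro O hO hOd Y hY
      rw [Submodule.mem_comap] at hY ⊢
      have hg : Q * O * (Qᵀ * F) ∈ SAut J0 := by
        refine ⟨?_, ?_⟩
        · change (Q * O * (Qᵀ * F))ᵀ * J0.map (algebraMap ℚ ℂ) * (Q * O * (Qᵀ * F)) =
            J0.map (algebraMap ℚ ℂ)
          rw [← hFdef]
          have e1 : (Q * O * (Qᵀ * F))ᵀ * F * (Q * O * (Qᵀ * F)) =
              F * (Q * (Oᵀ * ((Qᵀ * F * Q) * O) * (Qᵀ * F))) := by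
            rw [transpose_mul, transpose_mul, transpose_mul, transpose_transpose, hF]
            simp only [mul_assoc]
          rw [e1, hQ, one_mul, hO, one_mul, hinv', mul_one]
        · rw [det_mul, det_mul, hOd, mul_one, ← det_mul, hinv', det_one]
      have hgi : (Q * O * (Qᵀ * F))⁻¹ = Q * Oᵀ * (Qᵀ * F) := by
        apply inv_eq_left_inv
        have e1 : Q * Oᵀ * (Qᵀ * F) * (Q * O * (Qᵀ * F)) =
            Q * (Oᵀ * ((Qᵀ * F * Q) * O)) * (Qᵀ * F) := by
          simp only [mul_assoc]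
        rw [e1, hQ, one_mul, hO, mul_one, hinv']
      have h3 := hst _ hg _ hY
      rw [hgi, hφ] at h3
      rw [hφ]
      have e1 : Q * O * (Qᵀ * F) * (Q * Y * (Qᵀ * F)) * (Q * Oᵀ * (Qᵀ * F)) =
          Q * (O * ((Qᵀ * F * Q) * Y * (Qᵀ * F * Q)) * Oᵀ) * (Qᵀ * F) := by
        simp only [mul_assoc]
      rwa [e1, hQ, one_mul, mul_one] at h3
    · intro Y hY
      rw [Submodule.mem_comap] at hY
      have h3 := hsk _ hY
      rw [← hFdef] at h3
      have h4 := hsk' _ h3
      have h5 : Qᵀ * F * φ Y * Q = Y := by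
        rw [hφ]
        have e1 : Qᵀ * F * (Q * Y * (Qᵀ * F)) * Q = (Qᵀ * F * Q) * Y * (Qᵀ * F * Q) := by
          simp only [mul_assoc]
        rw [e1, hQ, one_mul, mul_one]
      rwa [h5] at h4
  rw [Submodule.mem_comap, hback] at h2
  exact h2

end Pool.Agent.MT100GO.H94
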